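import Mathlib
import Pool.Agent.Helper76.Conway.Brick

/-!
# MP_ea8a26_gt: log-concavity for block triangular Seifert matrices with small diagonal blocks

A positive diagram gives a Seifert surface that is an iterated Murasugi sum of special alternating
surfaces. Its Seifert matrix `V` has the structure `IsPositiveSeifert`: on each special alternating
piece it is the Laplacian of a connected Eulerian digraph with one vertex deleted, and all other
nonzero entries go from one level to the next. The Conway polynomial is `P` with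
`P (x - x⁻¹) = det (x V - x⁻¹ Vᵀ)` (`IsConwayOf`).
-/

namespace Pool.Agent.Results.MP_ea8a26_gt.SmallPieces

open Polynomial Pool.Agent.Helper76.Conway

/-- The conclusion: the coefficients `c j, c (j ± 2)` satisfy `c (j+2) * c (j-2) ≤ c j ^ 2` for all
integers `j` (with `cz P j` the coefficient of `z ^ j`, and `0` for `j < 0`), and all complex zeros
lie in the closed double sector `3 (Re z)^2 ≤ (Im z)^2`. -/
def SectorLogConcave (P : ℤ[X]) : Prop :=
  (∀ j : ℤ, cz P (j + 2) * cz P (j - 2) ≤ cz P j ^ 2) ∧
    ∀ z : ℂ, aeval z P = 0 → 3 * z.re ^ 2 ≤ z.im ^ 2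

theorem result :
    -- general statement: sector condition on the levels
    (∀ (ι : Type) [Fintype ι] [DecidableEq ι] (V : Matrix ι ι ℤ) (h : ι → ℤ) (T0 T1 : ℝ)
      (P : ℤ[X]), (∀ i j, V i j ≠ 0 → h i = h j ∨ h i = h j + 1) → 0 ≤ T0 → 0 ≤ T1 →
      T0 + T1 ≤ √3 * (1 - T0 * T1) →
      (∀ (c : ℤ) (v : ι → ℂ), (∀ i, v i ≠ 0 → h i = c) → v ≠ 0 →
        0 < (form (V.map (fun a => (a : ℝ))) v).re ∧
          |(form (V.map (fun a => (a : ℝ))) v).im| ≤
            (if Even c then T0 else T1) * (form (V.map (fun a => (a : ℝ))) v).re) →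
      IsConwayOf V P → SectorLogConcave P) ∧
    -- all special alternating pieces have at most two bounded regions
    (∀ (ι : Type) [Fintype ι] [DecidableEq ι] (V : Matrix ι ι ℤ) (p h : ι → ℤ) (P : ℤ[X]),
      IsPositiveSeifert V p h → (∀ c, (Finset.univ.filter (fun i => p i = c)).card ≤ 2) →
      IsConwayOf V P → SectorLogConcave P) ∧
    -- closures of positive braids, on any number of strands, in which every generator occurs at
    -- most three times
    (∀ (L : ℕ) (w : Fin L → ℕ) (P : ℤ[X]),
      (∀ i, (Finset.univ.filter (fun q => w q = i)).card ≤ 3) →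
      IsConwayOf (brickMatrix w) P → SectorLogConcave P) :=
  ⟨fun _ _ _ V h _ _ P tri h0 h1 hT hV hP => main_of_levels V P hP h tri h0 h1 hT hV,
    fun _ _ _ V p h P hS hcard hP => main_of_small V p h hS hcard P hP,
    fun _ w P hw hP => main_of_small (brickMatrix w) _ _ (isPositiveSeifert_brick w)
      (card_brick_le w hw) P hP⟩

end Pool.Agent.Results.MP_ea8a26_gt.SmallPieces
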